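import Pool.Agent.LR64.SRefl
import Pool.Agent.LR64.Upper

/-! # Reconstructible sets just above `1/n`: linear size, of the exact order `ε² n` -/

namespace Pool.Agent.Results.MP_730fda_pr.SharpOrder

/-- The unordered pairs of distinct points, the points being labelled by `Fin n`. -/
def pairs (n : ℕ) : Finset (Sym2 (Fin n)) :=
  Finset.univ.filter (fun e => ¬ e.IsDiag)

open Classical in
/-- The probability that the set `P` of known pairs has the property `E`, when each unordered pair
of distinct points is put in `P` independently with probability `p`. -/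
noncomputable def prob (n : ℕ) (p : ℝ) (E : Finset (Sym2 (Fin n)) → Prop) : ℝ :=
  ∑ P ∈ (pairs n).powerset.filter E, p ^ P.card * (1 - p) ^ ((pairs n).card - P.card)

/-- `x v` is the point with label `v`. The set `U` of points is reconstructible from the distances
of the pairs in `P`: every placement `f` of all the points at distinct places of the line with the
same distances for the pairs in `P` agrees on `U` with an isometry of the line. -/
def Reconstructible {n : ℕ} (x : Fin n → ℝ) (P : Finset (Sym2 (Fin n))) (U : Finset (Fin n)) :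
    Prop :=
  ∀ f : Fin n → ℝ, Function.Injective f → (∀ u v, s(u, v) ∈ P → |f u - f v| = |x u - x v|) →
    ∃ s t : ℝ, (s = 1 ∨ s = -1) ∧ ∀ u ∈ U, f u = s * x u + t

/-- The same for all placements, also those which put two points at the same place. -/
def StronglyReconstructible {n : ℕ} (x : Fin n → ℝ) (P : Finset (Sym2 (Fin n)))
    (U : Finset (Fin n)) : Prop :=
  ∀ f : Fin n → ℝ, (∀ u v, s(u, v) ∈ P → |f u - f v| = |x u - x v|) →
    ∃ s t : ℝ, (s = 1 ∨ s = -1) ∧ ∀ u ∈ U, f u = s * x u + t

/-- No point is the midpoint of two other points. -/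
def NoMidpoint {n : ℕ} (x : Fin n → ℝ) : Prop :=
  ∀ i j k, x i + x k = 2 * x j → i = k

/-- For every `ε > 0` there are `C` and `n₀` such that for all `n ≥ n₀` and all sets of `n` distinct
real numbers, with probability at least `1 - C / n` (for `p = (1 + ε) / n`): some set of at least
`min(ε, 1)² n / 1600` points is reconstructible even among all placements, every set which is
reconstructible among all placements has at most `17 min(ε, 1)² n` points, and if no point is the
midpoint of two others this holds for every reconstructible set. -/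
theorem result (ε : ℝ) (hε : 0 < ε) : ∃ (C : ℝ) (n₀ : ℕ), ∀ n : ℕ, n₀ ≤ n →
    ∀ x : Fin n → ℝ, Function.Injective x →
      1 - C / n ≤ prob n ((1 + ε) / n) (fun P =>
        (∃ U : Finset (Fin n), min ε 1 ^ 2 / 1600 * n ≤ (U.card : ℝ) ∧
          StronglyReconstructible x P U) ∧
        (∀ U : Finset (Fin n), StronglyReconstructible x P U →
          (U.card : ℝ) ≤ 17 * min ε 1 ^ 2 * n) ∧
        (NoMidpoint x → ∀ U : Finset (Fin n), Reconstructible x P U →
          (U.card : ℝ) ≤ 17 * min ε 1 ^ 2 * n)) := by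
  classical
  obtain ⟨C, n₀, _, h⟩ := LR82.main_uniform hε
  obtain ⟨D, m₀, hD, g⟩ := LR64.upper_core hε
  obtain ⟨N, hN⟩ := exists_nat_ge (1 + ε)
  obtain ⟨M, hM⟩ := exists_nat_ge (2 / (17 * min ε 1 ^ 2))
  refine ⟨C + D, max (max n₀ m₀) (max N (max M 1)), fun n hn x hx => ?_⟩
  have hn1 : n₀ ≤ n := (le_max_left _ _).trans ((le_max_left _ _).trans hn)
  have hn2 : m₀ ≤ n := (le_max_right _ _).trans ((le_max_left _ _).trans hn)
  have hn3 : N ≤ n := (le_max_left _ _).trans ((le_max_right _ _).trans hn)
  have hn5 : M ≤ n := (le_max_left _ _).trans ((le_max_right _ _).trans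
    ((le_max_right _ _).trans hn))
  have hn4 : 1 ≤ n := (le_max_right _ _).trans ((le_max_right _ _).trans
    ((le_max_right _ _).trans hn))
  have hn0 : (0:ℝ) < n := by exact_mod_cast hn4
  have he0 : 0 < min ε 1 := lt_min hε one_pos
  have hp0 : 0 ≤ (1 + ε) / n := by positivity
  have hp1 : (1 + ε) / n ≤ 1 := by
    rw [div_le_one hn0]
    exact hN.trans (by exact_mod_cast hn3)
  have hbig : 2 ≤ 17 * min ε 1 ^ 2 * n := by
    have h1 : 2 / (17 * min ε 1 ^ 2) ≤ n := hM.trans (by exact_mod_cast hn5)
    rw [div_le_iff₀ (by positivity)] at h1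
    linarith
  have h3 : LR82.Pr ((1 + ε) / n) (LR82.Epairs n) (fun P => ¬ (
        (∃ U : Finset (Fin n), min ε 1 ^ 2 / 1600 * n ≤ (U.card : ℝ) ∧
          StronglyReconstructible x P U) ∧
        (∀ U : Finset (Fin n), StronglyReconstructible x P U →
          (U.card : ℝ) ≤ 17 * min ε 1 ^ 2 * n) ∧
        (NoMidpoint x → ∀ U : Finset (Fin n), Reconstructible x P U →
          (U.card : ℝ) ≤ 17 * min ε 1 ^ 2 * n))) ≤ C / n + D / n := by
    refine (LR82.Pr_mono hp0 hp1 (Q := fun P => (¬ ∃ U : Finset (Fin n),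
        min ε 1 ^ 2 / 1600 * n ≤ U.card ∧ LR82.SRec x P U) ∨ ∃ W : Finset (Fin n),
        17 * min ε 1 ^ 2 * n < W.card ∧ LR64.Core P W)
      fun P _ hP => ?_).trans ((LR82.Pr_or hp0 hp1 _ _ _).trans
        (add_le_add (h n hn1 x hx) (g n hn2)))
    by_contra hcon
    rw [not_or, not_not, not_exists] at hcon
    obtain ⟨hc1, hc2⟩ := hcon
    have hcore : ∀ U : Finset (Fin n), (3 ≤ U.card → ∃ W, U ⊆ W ∧ LR64.Core P W) →
        (U.card : ℝ) ≤ 17 * min ε 1 ^ 2 * n := by
      intro U hU
      rcases Nat.lt_or_ge U.card 3 with hc | hc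
      · have : (U.card : ℝ) ≤ 2 := by exact_mod_cast Nat.lt_succ_iff.1 hc
        linarith
      · obtain ⟨W, hUW, hW⟩ := hU hc
        by_contra hlt
        rw [not_le] at hlt
        refine hc2 W ⟨hlt.trans_le ?_, hW⟩
        exact_mod_cast Finset.card_le_card hUW
    exact hP ⟨hc1, fun U hU => hcore U fun hc => LR64.core_of_srec hx hc hU,
      fun hmid U hU => hcore U fun hc => LR64.core_of_irec hmid hc hU⟩
  have h2 : LR82.Pr ((1 + ε) / n) (LR82.Epairs n) (fun P =>
        (∃ U : Finset (Fin n), min ε 1 ^ 2 / 1600 * n ≤ (U.card : ℝ) ∧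
          StronglyReconstructible x P U) ∧
        (∀ U : Finset (Fin n), StronglyReconstructible x P U →
          (U.card : ℝ) ≤ 17 * min ε 1 ^ 2 * n) ∧
        (NoMidpoint x → ∀ U : Finset (Fin n), Reconstructible x P U →
          (U.card : ℝ) ≤ 17 * min ε 1 ^ 2 * n)) =
      prob n ((1 + ε) / n) (fun P =>
        (∃ U : Finset (Fin n), min ε 1 ^ 2 / 1600 * n ≤ (U.card : ℝ) ∧
          StronglyReconstructible x P U) ∧
        (∀ U : Finset (Fin n), StronglyReconstructible x P U →
          (U.card : ℝ) ≤ 17 * min ε 1 ^ 2 * n) ∧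
        (NoMidpoint x → ∀ U : Finset (Fin n), Reconstructible x P U →
          (U.card : ℝ) ≤ 17 * min ε 1 ^ 2 * n)) := by
    unfold LR82.Pr LR82.Ex prob
    rw [Finset.sum_filter]
    refine Finset.sum_congr rfl fun P _ => ?_
    rw [mul_ite, mul_one, mul_zero]
    rfl
  rw [← h2]
  rw [LR82.Pr_compl] at h3
  rw [add_div]
  linarith

end Pool.Agent.Results.MP_730fda_pr.SharpOrder
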